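import Pool.Agent.VTP.StmtsG

set_option autoImplicit false

namespace Pool.Agent.VTP.H90

open Finset Pool.Agent.ZOL Pool.Agent.VTP

theorem dec (hops : OpsStmt) (hamb : AmbStmt) (hhsn : HsnStmt) : DecStmt := by
  obtain ⟨I, Θ, hsys⟩ := hops
  obtain ⟨Z', _, A, I', Θ', hfam, hA⟩ := hamb ZK F I Θ hsys
  refine ⟨fun k => BB A Θ' k, fun k => inferInstance, fun d => ?_⟩
  obtain ⟨e1⟩ := hA d
  obtain ⟨e2⟩ := hhsn Z' A I' Θ' hfam d
  have e3 : Graded d ≃+ (F d ⧸ (F (d + 1)).addSubgroupOf (F d)) := AddEquiv.refl _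
  exact ⟨(e3.trans e1.symm).trans e2⟩

end Pool.Agent.VTP.H90
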