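import Pool.Agent.VTP.StmtsW
import Pool.Agent.Helper11_ZOL.VR3

set_option autoImplicit false

namespace Pool.Agent.VTP.H90

open Finset Pool.Agent.ZOL Pool.Agent.VTP

theorem knp (h1 : Wr1Stmt) (h2 : Wr2Stmt) (hc : CanStmt) (h3 : Wr3Stmt) (hn : WrnStmt) :
    KnpStmt := by
  refine ⟨Quot.lift (fun D : Diagram => PW D.1) ?_, fun D => rfl⟩
  rintro ⟨x, hx⟩ ⟨y, hy⟩ h
  change Step x y at h
  change PW x = PW y
  cases h with
  | rename w σ hσ => exact (hn _ _ hσ).symm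
  | r1 u v a r o => exact h1 u v a r o hx.1
  | r2a u v z a b r o => exact h2.1 u v z a b r o hx.1
  | r2b u v z a b r o => exact h2.2 u v z a b r o hx.1
  | r3 u₀ u₁ u₂ u₃ s₁ s₂ s₃ a b c t m d e hp =>
    obtain ⟨hab, hac, hbc, -⟩ := H11.tri hp hx.1
    obtain ⟨la, lb, lc, α, β, γ, hcan⟩ := hc s₁ s₂ s₃ a b c t m d e hab hac hbc hp
    exact h3 u₀ u₁ u₂ u₃ s₁ s₂ s₃ la lb lc α β γ hcan hx.1 hx.2 hy.1 hy.2

end Pool.Agent.VTP.H90
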