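import Pool.Agent.VTP.StmtsG
import Pool.Agent.Helper34_ZOL.ALG
import Pool.Agent.Helper25_ZOL.Th
import Pool.Agent.Helper25_ZOL.Deg
import Pool.Agent.Helper25_ZOL.Fant

set_option autoImplicit false

namespace Pool.Agent.VTP.H90

open Finset Pool.Agent.ZOL Pool.Agent.VTP

theorem bp_neg {n : ℕ} {g : ℕ → ℤ} {c : ℤ} (h : BP n g c) : BP n (fun j => - g j) (-c) := by
  obtain ⟨a, ha, hc⟩ := h
  refine ⟨fun r => - a r, fun j => ?_, by simp [hc]⟩
  simp only [ha j, neg_mul, Finset.sum_neg_distrib]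

theorem ls_nodup (N : ℕ) : ((List.range (2 * N)).map (fun n => n + 2)).Nodup :=
  (List.nodup_range).map (fun a b h => by simpa using h)

theorem tw_gauss (hg : TggStmt) (N : ℕ) : IsGauss (tw N) := by
  refine hg.1 _ _ (ls_nodup N) ?_ ?_
  · simp
  · simp

theorem deg_neg {m : ℕ} {h : Finset ℕ → ℤ} (hh : Deg m h) : Deg m (fun S => - h S) := by
  intro A hA
  have := hh A hA
  simp only [mul_neg, Finset.sum_neg_distrib, this, neg_zero]

theorem ops (hknp : KnpStmt) (hwmu : WmuStmt) (hwdg : WdgStmt) (htwv : TwvStmt)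
    (hmuj : MujStmt) (head : EadStmt) (hedg : EdgStmt) (hetw : EtwStmt) (hitr : ItrStmt)
    (hrel : RelStmt) (hfim : FimStmt) (hfid : FidStmt) (hpcc : PccStmt) (hqex : QexStmt)
    (htgg : TggStmt) : OpsStmt := by
  obtain ⟨P, hP⟩ := hknp
  obtain ⟨μ, hμ1, hμ2⟩ := hmuj
  have hPc : ∀ w : Word, PowerSeries.constantCoeff (PW w) = 1 := fun w =>
    hpcc qq hqex.1 hqex.2.2 _ _ _ _
  have hgt : ∀ j, IsGauss (tw j) := tw_gauss htgg
  set v : ℕ → Knot → ℤ := fun m K => - ee m (P K) with hv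
  set E : ℕ → ℕ → ℤ := fun m j => - ee m (PW (tw j)) with hE
  have hadd : ∀ m, 1 ≤ m → ∀ j K, v m (μ j K) = v m K + E m j := by
    intro m hm j K
    obtain ⟨D, rfl⟩ := Quot.exists_rep K
    obtain ⟨h, hh⟩ := hμ2 j D
    have e1 : PW (mul D.1 (tw j)) = PW D.1 * PW (tw j) :=
      hwmu D.1 (tw j) D.2.1 (hgt j) (htwv j).2
    have e2 : P (μ j (Quot.mk _ D)) = PW D.1 * PW (tw j) :=
      ((congrArg P hh).trans (hP _)).trans e1
    have e3 : ee m (P (μ j (Quot.mk _ D))) = ee m (PW D.1) + ee m (PW (tw j)) :=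
      (congrArg (ee m) e2).trans (head _ _ (hPc _) (hPc _) m hm)
    have e4 : ee m (P (Quot.mk _ D)) = ee m (PW D.1) := congrArg (ee m) (hP D)
    change - ee m (P (μ j (Quot.mk _ D))) = - ee m (P (Quot.mk _ D)) + - ee m (PW (tw j))
    rw [e3, e4]
    ring
  have hBP : ∀ m, 2 ≤ m → BP (m - 1) (E m) 1 := by
    intro m hm
    have h1 := bp_neg (hetw m hm)
    have h2 : (fun j : ℕ => - ee m (qq 1 + (1 - qq 1) * qq (j : ℤ))) = E m := by
      funext j
      simp only [hE]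
      rw [(htwv j).1]
    rw [h2, neg_neg] at h1
    exact h1
  have hT : ∀ m, 1 ≤ m → ∀ n k, ∀ x ∈ F k, theta (v m) n x ∈ F (k - m * n) := by
    intro m hm n k x hx
    refine H25.th (v m) (fun w => - ee m (PW w)) m (fun D => ?_) (fun w hw => ?_) n k x hx
    · exact congrArg (fun z => - ee m z) (hP D)
    · exact deg_neg (hedg (fun B => PW (flip B w)) (hwdg w hw) m hm)
  have hI1 : ∀ r j d : ℕ, 1 ≤ r → ∀ x ∈ F d,
      (∑ i ∈ range (r + 1), ((-1 : ℤ) ^ (r - i) * (r.choose i : ℤ)) • lin (μ (i + j)) x) ∈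
        F (d + r + 1) := hfim (fun j => lin (μ j)) hμ1
  have hanti : Antitone F := antitone_nat_of_succ_le H25.fant
  refine ⟨II μ, fun m n => theta (v m) n, hanti, ?_, ?_, ?_, ?_, ?_, ?_⟩
  · intro m hm k x hx
    have h1 := hI1 (m - 1) 0 k (by omega) x hx
    have e1 : k + (m - 1) + 1 = k + m := by omega
    have e2 : m - 1 + 1 = m := by omega
    rw [e1, e2] at h1
    have e3 : II μ m x = ∑ i ∈ range m, ((-1 : ℤ) ^ (m - 1 - i) * ((m - 1).choose i : ℤ)) •
        lin (μ (i + 0)) x := by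
      simp only [II, AddMonoidHom.finsetSum_apply, add_zero]
      rfl
    rw [e3]
    exact h1
  · intro m hm n k x hx
    exact hT m (by omega) n k x hx
  · intro m hm x
    exact H34.theta_zero (v m) x
  · intro m m' hm hm' n n' x
    exact hitr.1 Knot (v m) (v m') n n' x
  · intro m hm a b k hk x hx
    exact hitr.2 Knot F (v m) m (by omega) hanti (hT m (by omega)) a b k hk x hx
  · intro m m' hm hm' n k x hx
    have h1 := hrel Knot F μ (v m') (E m') m m' 1 hm hm' hanti (hadd m' (by omega))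
      (hBP m' hm') (hT m' (by omega)) hI1 (hfid (fun j => lin (μ j)) hμ1) n k x hx
    simpa only [one_smul] using h1

end Pool.Agent.VTP.H90
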