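import Pool.Agent.Helper15_VTP.FIM
import Pool.Agent.Helper16_VTP.PMU
import Pool.Agent.Helper1_VTP.TFL
import Pool.Agent.Helper24_VTP.WR3
import Pool.Agent.Helper25_VTP.PLJ
import Pool.Agent.Helper26_VTP.MUJ
import Pool.Agent.Helper27_VTP.TPG
import Pool.Agent.Helper28_VTP.COR
import Pool.Agent.Helper28_VTP.PCC
import Pool.Agent.Helper28_VTP.PDG
import Pool.Agent.Helper31_VTP.TRN
import Pool.Agent.Helper34_VTP.HS1
import Pool.Agent.Helper37_VTP.TWD
import Pool.Agent.Helper37_VTP.TWV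
import Pool.Agent.Helper3_VTP.PCG
import Pool.Agent.Helper41_VTP.BCH
import Pool.Agent.Helper41_VTP.BPC
import Pool.Agent.Helper41_VTP.ITR
import Pool.Agent.Helper41_VTP.NPG
import Pool.Agent.Helper42_VTP.ETW
import Pool.Agent.Helper43_VTP.FID
import Pool.Agent.Helper44_VTP.LOC
import Pool.Agent.Helper44_VTP.PIM
import Pool.Agent.Helper45_VTP.WBA
import Pool.Agent.Helper49_VTP.EAD
import Pool.Agent.Helper49_VTP.TUN
import Pool.Agent.Helper53_VTP.WRN
import Pool.Agent.Helper55_VTP.PLS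
import Pool.Agent.Helper59_VTP.CAN
import Pool.Agent.Helper64_VTP.WDG
import Pool.Agent.Helper67_VTP.WR2
import Pool.Agent.Helper68_VTP.EDG
import Pool.Agent.Helper68_VTP.HSN
import Pool.Agent.Helper69_VTP.PR3
import Pool.Agent.Helper70_VTP.REL
import Pool.Agent.Helper77_VTP.TGG
import Pool.Agent.Helper81_VTP.TRM
import Pool.Agent.Helper83_VTP.EBX
import Pool.Agent.Helper83_VTP.TSW
import Pool.Agent.Helper87_VTP.TWS
import Pool.Agent.Helper88_VTP.PR1
import Pool.Agent.Helper89_VTP.WMU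
import Pool.Agent.Helper8_VTP.AMB
import Pool.Agent.Helper90_VTP.DEC
import Pool.Agent.Helper90_VTP.KNP
import Pool.Agent.Helper90_VTP.OPS
import Pool.Agent.Helper94_VTP.WR1
import Pool.Agent.Helper98_VTP.QEX
import Pool.Agent.Helper9_VTP.PR2

/-!
# VTP: assembly
-/

set_option autoImplicit false

namespace Pool.Agent.VTP.H90

open Finset Pool.Agent.ZOL Pool.Agent.VTP

theorem mainOps : OpsStmt := by
  have wba : WbaStmt := H45.wba
  have wr1 : Wr1Stmt := H94.wr1 H3.pcg H88.pr1 H98.qex wba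
  have wr2 : Wr2Stmt := H67.wr2 H3.pcg H9.pr2 H98.qex wba
  have pr3 : Pr3Stmt := H69.pr3 H44.loc
  have plj : PljStmt := H25.plj H55.pls
  have wr3 : Wr3Stmt := H24.wr3 H3.pcg pr3 plj H98.qex wba
  have wrn : WrnStmt := H53.wrn H44.pim
  have knp : KnpStmt := H90.knp wr1 wr2 H59.can wr3 wrn
  have wmu : WmuStmt := H89.wmu H3.pcg H44.pim H16.pmu H98.qex
  have wdg : WdgStmt := H64.wdg H3.pcg H28.pdg H98.qex wba
  have twv : TwvStmt := H37.twv H37.twd H87.tws H3.pcg H98.qex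
  have trm : TrmStmt := H81.trm H77.tgg H27.tpg
  have trn : TrnStmt := H31.trn H77.tgg H27.tpg
  have tun : TunStmt := H49.tun H77.tgg H27.tpg
  have tsw : TswStmt := H83.tsw H1.tfl trm trn tun
  have fim : FimStmt := H15.fim H77.tgg H27.tpg tsw
  have fid : FidStmt := H43.fid H77.tgg H27.tpg tsw
  have muj : MujStmt := H26.muj H77.tgg H27.tpg
  have ead : EadStmt := H49.ead H83.ebx
  have bch : BchStmt := H41.bch H41.bpc
  have etw : EtwStmt := H42.etw H83.ebx bch H98.qex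
  have rel : RelStmt := H70.rel bch
  exact ops knp wmu wdg twv muj ead H68.edg etw H41.itr rel fim fid H28.pcc H98.qex H77.tgg

theorem main :
    (∃ (M : ℕ → Type) (_ : ∀ k, AddCommGroup (M k)), ∀ d : ℕ,
      Nonempty (Graded d ≃+ ((s : {s : Multiset ℕ // (∀ x ∈ s, 2 ≤ x) ∧ s.sum ≤ d}) →
        M (d - s.1.sum)))) ∧
    (∀ p : ℕ, p.Prime → (∀ (d : ℕ) (x : Graded d), (p : ℤ) • x = 0 → x = 0) ∨
      ∃ e : ℕ, ∀ d, e ≤ d → Embeds (Fin (np (d - e)) → ZMod p) (Graded d)) ∧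
    (∀ k : ℕ, ∃ N : ℕ, ∀ n, N ≤ n → n ^ k ≤ np n) := by
  have hdec : DecStmt := dec mainOps H8.amb (H68.hsn H34.hs1)
  obtain ⟨M, inst, hM⟩ := hdec
  have hcor := H28.cor M inst Graded (fun k => inferInstance) hM
  exact ⟨⟨M, inst, hM⟩, hcor.2, H41.npg⟩

end Pool.Agent.VTP.H90
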